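import Mathlib

namespace Pool.Agent.Results.MP_c44e76_an.Inverse

open Set Filter Topology Uniformity

variable {X : Type*}

/-- `(V,1)`-pseudo-orbit -/
def Pseudo1 (G V : Set (X × X)) (x : ℕ → X) : Prop :=
  ∀ n, (∃ y, (x n, y) ∈ G) ∧ ∀ y, (x n, y) ∈ G → (x (n + 1), y) ∈ V

/-- `(V,2)`-pseudo-orbit -/
def Pseudo2 (G V : Set (X × X)) (x : ℕ → X) : Prop :=
  ∀ n, ∃ y, (x n, y) ∈ G ∧ (x (n + 1), y) ∈ V

/-- some legal point `(U,2)`-shadows `x` -/
def Shadowed (G U : Set (X × X)) (x : ℕ → X) : Prop :=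
  ∃ y : ℕ → X, (∀ n, (y n, y (n + 1)) ∈ G) ∧ ∀ n, (x n, y n) ∈ U

theorem result [UniformSpace X] [CompactSpace X] [T2Space X] [Nonempty X] (G : Set (X × X))
    (hG : IsClosed G) (hd : diagonal X ⊆ G)
    (h : ∀ U ∈ 𝓤 X, ∃ V ∈ 𝓤 X, ∀ x, Pseudo2 G V x → Shadowed G U x) :
    (∀ U ∈ 𝓤 X, ∃ V ∈ 𝓤 X, ∀ x, Pseudo2 (Prod.swap ⁻¹' G) V x → Shadowed (Prod.swap ⁻¹' G) U x) ∧
    ∀ U ∈ 𝓤 X, ∃ V ∈ 𝓤 X, ∀ x, Pseudo1 (Prod.swap ⁻¹' G) V x → Shadowed (Prod.swap ⁻¹' G) U x := by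
  have key : ∀ U ∈ 𝓤 X, ∃ V ∈ 𝓤 X, ∀ x, Pseudo2 (Prod.swap ⁻¹' G) V x →
      Shadowed (Prod.swap ⁻¹' G) U x := by
    intro U hU
    obtain ⟨C, ⟨hC, cC⟩, CU⟩ := uniformity_hasBasis_closed.mem_iff.1 hU
    obtain ⟨W, hW, WC⟩ := comp_mem_uniformity_sets hC
    obtain ⟨V, hV, H⟩ := h W hW
    refine ⟨W ∩ Prod.swap ⁻¹' V, inter_mem hW (symm_le_uniformity hV), fun x hx => ?_⟩
    choose y h1 h2 using hx
    have fin : ∀ N, ∃ t : ℕ → X, (∀ n < N, (t (n + 1), t n) ∈ G) ∧ ∀ n ≤ N, (x n, t n) ∈ C := by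
      intro N
      obtain ⟨w, w1, w2⟩ := H (fun k => if k < N then y (N - 1 - k) else x 0) fun k => by
        by_cases a : k + 1 < N
        · refine ⟨x (N - 1 - k), by simpa [show k < N by omega] using h1 _, ?_⟩
          have := (h2 (N - 1 - (k + 1))).2
          rw [show N - 1 - (k + 1) + 1 = N - 1 - k by omega] at this
          simpa [a] using this
        refine ⟨x 0, ?_, by simpa [a] using refl_mem_uniformity hV⟩
        by_cases b : k < N
        · simpa [b, show N - 1 - k = 0 by omega] using h1 0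
        · simpa [b] using hd (mem_diagonal _)
      refine ⟨fun n => w (N - n), fun n hn => ?_, fun n hn => WC ?_⟩
      · simpa [show N - (n + 1) + 1 = N - n by omega] using w1 (N - (n + 1))
      rcases n with _ | n
      · exact ⟨x 0, refl_mem_uniformity hW, by simpa using w2 N⟩
      · refine ⟨y n, (h2 n).1, ?_⟩
        simpa [show N - (n + 1) < N by omega, show N - 1 - (N - (n + 1)) = n by omega]
          using w2 (N - (n + 1))
    choose t t1 t2 using fin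
    obtain ⟨s, hs⟩ := exists_clusterPt_of_compactSpace (map t atTop)
    have cl : ∀ K : Set (ℕ → X), IsClosed K → (∀ᶠ N in atTop, t N ∈ K) → s ∈ K := fun K hK e =>
      hK.closure_eq ▸ (hs.mono (le_principal_iff.2 e)).mem_closure
    refine ⟨s, fun n => cl {s | (s (n + 1), s n) ∈ G} (hG.preimage (by fun_prop)) ?_,
      fun n => CU (cl {s | (x n, s n) ∈ C} (cC.preimage (by fun_prop)) ?_)⟩
    · filter_upwards [eventually_gt_atTop n] with N hN using t1 N n hN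
    · filter_upwards [eventually_ge_atTop n] with N hN using t2 N n hN
  refine ⟨key, fun U hU => ?_⟩
  obtain ⟨V, hV, H⟩ := key U hU
  exact ⟨V, hV, fun x hx => H x fun n => (hx n).1.imp fun y hy => ⟨hy, (hx n).2 y hy⟩⟩

end Pool.Agent.Results.MP_c44e76_an.Inverse
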